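import Pool.Agent.W813.NC.Stm

/-!
Project NC (helper813), subtask NC-NIL.
-/

set_option linter.unusedSectionVars false

open Polynomial

namespace Pool.Agent.W173.NC

universe v

section
variable {K : Type} [Field K] [CharZero K] {R : Type v} [Ring R] [Algebra K R]

/-- evaluation at a central scalar -/
noncomputable def ev (t : K) : R[X] →+* R :=
  Polynomial.eval₂RingHom' (RingHom.id R) (algebraMap K R t) (fun a => (Algebra.commutes t a).symm)

lemma ev_apply (t : K) (p : R[X]) :
    ev t p = ∑ i ∈ Finset.range (p.natDegree + 1), p.coeff i * (algebraMap K R t) ^ i := by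
  have : ev t p = Polynomial.eval₂ (RingHom.id R) (algebraMap K R t) p := rfl
  rw [this, Polynomial.eval₂_eq_sum_range]
  rfl

lemma ev_C (t : K) (a : R) : ev t (C a) = a := by
  have : ev t (C a) = Polynomial.eval₂ (RingHom.id R) (algebraMap K R t) (C a) := rfl
  rw [this, Polynomial.eval₂_C]; rfl

lemma ev_X (t : K) : ev t (X : R[X]) = algebraMap K R t := by
  have : ev t (X : R[X]) = Polynomial.eval₂ (RingHom.id R) (algebraMap K R t) X := rfl
  rw [this, Polynomial.eval₂_X]

lemma eq_zero_of_ev (p : R[X]) (h : ∀ t : K, ev t p = 0) : p = 0 := by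
  ext i
  rw [Polynomial.coeff_zero]
  by_cases hi : i ≤ p.natDegree
  swap
  · exact Polynomial.coeff_eq_zero_of_natDegree_lt (by omega)
  rw [← Module.forall_dual_apply_eq_zero_iff K]
  intro φ
  set q : K[X] := ∑ j ∈ Finset.range (p.natDegree + 1), Polynomial.monomial j (φ (p.coeff j)) with hq
  have hq0 : q = 0 := by
    apply Polynomial.funext
    intro t
    rw [hq, Polynomial.eval_finsetSum, Polynomial.eval_zero]
    have h1 := congrArg φ (h t)
    rw [ev_apply, map_sum, map_zero] at h1
    rw [← h1]
    apply Finset.sum_congr rfl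
    intro j _
    rw [Polynomial.eval_monomial]
    have : p.coeff j * (algebraMap K R t) ^ j = (t ^ j) • p.coeff j := by
      rw [← map_pow, Algebra.smul_def, Algebra.commutes]
    rw [this, map_smul, smul_eq_mul, mul_comm]
  have h2 : q.coeff i = φ (p.coeff i) := by
    rw [hq, Polynomial.finsetSum_coeff]
    simp only [Polynomial.coeff_monomial]
    rw [Finset.sum_ite_eq' (Finset.range (p.natDegree + 1)) i]
    simp [Nat.lt_succ_of_le hi]
  rw [← h2, hq0, Polynomial.coeff_zero]

end

theorem nil (K : Type) [Field K] [CharZero K] (R : Type v) [Ring R] [Algebra K R] :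
    Pool.Agent.W813.NC.S_NIL K R := by
  intro a b n m hb ha
  set A : R[X] := C a with hA
  set B : R[X] := C b with hB
  have hcX : ∀ p : R[X], X * p = p * X := fun p => (Polynomial.X_mul)
  set x : R[X] := X * B with hx
  have hxm : x ^ m = 0 := by
    rw [hx, (show Commute (X : R[X]) B from hcX B).mul_pow, hB, ← C_pow, hb]
    simp
  set g : R[X] := ∑ i ∈ Finset.range m, x ^ i with hg
  have hg1 : g * (1 - x) = 1 := by
    rw [hg, geom_sum_mul_neg, hxm, sub_zero]
  set w : R[X] := X * A * g with hw
  have hwn : w ^ n = 0 := by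
    apply eq_zero_of_ev (K := K)
    intro t
    rw [map_pow]
    have : ev t w = a * (algebraMap K R t * ev t g) := by
      rw [hw, map_mul, map_mul, ev_X, hA, ev_C, Algebra.commutes t a, mul_assoc]
    rw [this]
    exact ha _
  set h : R[X] := ∑ j ∈ Finset.range n, w ^ j with hh
  have hh1 : h * (1 - w) = 1 := by
    rw [hh, geom_sum_mul_neg, hwn, sub_zero]
  set q : R[X] := g * h with hq
  have hfac : (1 - w) * (1 - x) = 1 - X * C (a + b) := by
    have : w * (1 - x) = X * A := by
      rw [hw, mul_assoc, hg1, mul_one]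
    rw [sub_mul, this, one_mul, C_add, mul_add, ← hA, ← hB, hx]
    abel
  have hq1 : q * (1 - X * C (a + b)) = 1 := by
    rw [← hfac, hq, mul_assoc, ← mul_assoc h, hh1, one_mul, hg1]
  have hq2 : q = 1 + q * C (a + b) * X := by
    have h3 : q - q * C (a + b) * X = 1 := by
      rw [← hq1, mul_sub, mul_one, hcX (C (a + b)), mul_assoc]
    rw [← h3]; abel
  have hcoef : ∀ i, q.coeff i = (a + b) ^ i := by
    intro i
    induction i with
    | zero =>
      rw [hq2]
      simp
    | succ i ih =>
      rw [hq2, Polynomial.coeff_add, Polynomial.coeff_mul_X, Polynomial.coeff_mul_C, ih,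
        Polynomial.coeff_one, pow_succ]
      simp
  refine ⟨q.natDegree + 1, ?_⟩
  rw [← hcoef]
  exact Polynomial.coeff_eq_zero_of_natDegree_lt (by omega)

end Pool.Agent.W173.NC
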